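import Mathlib
import Pool.Agent.X238.DW.Stm2
import Pool.Agent.X168.DW.Tel

set_option autoImplicit false

namespace Pool.Agent.X181.DW

open MeasureTheory Set Filter Topology Pool.Agent.X238.DW Pool.Agent.X168.DW

universe v

theorem t_LIX2 : S_LIX2.{v} := by
  intro V _ _ _ g γ C B hγ hg hb hB
  have hint : Integrable (fun s : ℝ => C * Real.exp (-(γ * s))) (volume.restrict (Ioi (0 : ℝ))) := by
    have := (exp_neg_integrableOn_Ioi (0 : ℝ) hγ).const_mul C
    refine this.congr ?_
    filter_upwards with s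
    congr 2
    ring
  have hlim : Tendsto (fun n : ℕ => ∫ s in Ioi (0 : ℝ),
      cut n (-s) * (‖g s‖ ^ 2 / (‖g s‖ + 1 / (n + 1)))) atTop (𝓝 (∫ s in Ioi (0 : ℝ), ‖g s‖)) := by
    refine tendsto_integral_of_dominated_convergence (fun s : ℝ => C * Real.exp (-(γ * s))) ?_ hint ?_ ?_
    · intro n
      refine Continuous.aestronglyMeasurable ?_
      refine ((cut_cont n).comp continuous_neg).mul ?_
      refine Continuous.div (by fun_prop) (by fun_prop) ?_
      intro s
      have : (0 : ℝ) < 1 / ((n : ℝ) + 1) := by positivity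
      have := norm_nonneg (g s)
      positivity
    · intro n
      filter_upwards [ae_restrict_mem measurableSet_Ioi] with s hs
      have h1 := hb s (le_of_lt hs)
      have hpos : (0 : ℝ) < 1 / ((n : ℝ) + 1) := by positivity
      have hn := norm_nonneg (g s)
      have h2 : ‖g s‖ ^ 2 / (‖g s‖ + 1 / ((n : ℝ) + 1)) ≤ ‖g s‖ := by
        rw [div_le_iff₀ (by positivity)]
        nlinarith
      have h3 : 0 ≤ ‖g s‖ ^ 2 / (‖g s‖ + 1 / ((n : ℝ) + 1)) := by positivity
      rw [Real.norm_eq_abs, abs_of_nonneg (mul_nonneg (cut_nonneg n _) h3)]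
      calc cut n (-s) * (‖g s‖ ^ 2 / (‖g s‖ + 1 / ((n : ℝ) + 1)))
          ≤ 1 * (‖g s‖ ^ 2 / (‖g s‖ + 1 / ((n : ℝ) + 1))) :=
            mul_le_mul_of_nonneg_right (cut_le_one n _) h3
        _ ≤ ‖g s‖ := by rw [one_mul]; exact h2
        _ ≤ _ := h1
    · filter_upwards with s
      have h1 : Tendsto (fun n : ℕ => ‖g s‖ ^ 2 / (‖g s‖ + 1 / ((n : ℝ) + 1))) atTop (𝓝 ‖g s‖) := by
        rcases eq_or_lt_of_le (norm_nonneg (g s)) with h0 | h0
        · simp only [← h0]
          have : ∀ n : ℕ, (0 : ℝ) ^ 2 / (0 + 1 / ((n : ℝ) + 1)) = 0 := by intro n; simp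
          simp only [this]
          exact tendsto_const_nhds
        · have h2 : Tendsto (fun n : ℕ => ‖g s‖ + 1 / ((n : ℝ) + 1)) atTop (𝓝 (‖g s‖ + 0)) :=
            tendsto_one_div_add_atTop_nhds_zero_nat.const_add _
          rw [add_zero] at h2
          have h3 := (tendsto_const_nhds (x := ‖g s‖ ^ 2)).div h2 h0.ne'
          have e : ‖g s‖ ^ 2 / ‖g s‖ = ‖g s‖ := by field_simp
          rw [e] at h3
          exact h3
      have h4 := (cut_tendsto (-s)).mul h1
      rw [one_mul] at h4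
      exact h4
  exact le_of_tendsto' hlim hB

end Pool.Agent.X181.DW
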